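import Pool.Agent.V5helper29.RLS.Solve
import Pool.Agent.V5helper29.RLS.P_ORT
import Pool.Agent.V5helper29.RLS.P_GCL
import Pool.Agent.V5helper29.RLS.P_GAU
import Pool.Agent.V5helper29.RLS.P_CLO
import Pool.Agent.V5helper29.RLS.P_CB
import Pool.Agent.V5helper29.RLS.P_SP
import Pool.Agent.V5helper29.RLS.P_TC
import Pool.Agent.V5helper29.RLS.P_ASY
import Pool.Agent.V5helper29.RLS.P_TWO
import Pool.Agent.V5helper29.RLS.P_BD
import Pool.Agent.V5helper29.RLS.P_REC
import Pool.Agent.V5helper29.RLS.P_NUM
import Pool.Agent.V5helper29.RLS.P_LO
import Pool.Agent.V5helper29.RLS.P_TR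
import Pool.Agent.V5helper72.RLS.FG

/-!
# Random linear systems in time `n ^ 2` times a power of `log (n / ε)`

We show that one algorithm, in the model of the problem (exact real numbers, each operation `+`, `-`, `*`, `/` and each
comparison at unit cost), solves `A x = b` to accuracy `ε` with `O (n ^ 2 log ^ 2 (n / ε))` operations, for all right hand
sides `b` and all `ε ∈ (0, 1)` simultaneously, for all matrices `A` outside an event whose probability tends to `0`, in
each of the three ensembles: Gaussian, Rademacher and Bernoulli. So the answer to the question is yes for all three of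
them, with `δ = ω - 2`.

The algorithm. Let `P` be a power of `2` which is polynomial in `n / ε`. The entries of `A` (scaled) are rounded to
multiples of `1 / P`, the bits being found by comparisons. Then Newton's iteration `X ↦ 2 X - X B X`, `X_0 = Bᵀ`, is
applied to the rounded matrix `B`; it converges quadratically, and after `O (log (n / ε))` steps `x = X b` (scaled) is the
solution. All the products of matrices are rounded to multiples of `1 / P`. A product `Z = X Y` of two such matrices is
computed with `O (n ^ 2 log (n / ε))` operations: the rows of `Y` are packed into the numbers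
`y_k = ∑_j Y_{k j} M ^ j`, with `M` a large power of `2`; then `∑_k X_{i k} y_k = ∑_j Z_{i j} M ^ j`, for each `i`, is
computed with `O (n)` operations, and since the `P ^ 2 Z_{i j}` are integers of small absolute value (`O (log (n / ε))` bits), the
digits are read off with `O (log (n / ε))` comparisons for each entry. (So the algorithm
makes essential use of the fact that in the model of the problem the operations on real numbers are exact
and have unit cost; the numbers `y_k` have about `n log (n / ε)` binary digits.)

That the iteration converges for almost all `A` follows from a polynomial lower bound for the least singular value, which is proved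
here for the three ensembles.
-/

set_option autoImplicit false

noncomputable section

namespace Pool.Agent.Results.MP_9b7f10_lc.NearQuadraticTime

open MeasureTheory ProbabilityTheory Filter Topology
open scoped Matrix ENNReal
open Pool.Agent.V5helper29.RLS (Computes encode)

/-- The three ensembles of the problem. -/
inductive Ensemble
  | gaussian
  | rademacher
  | bernoulli

/-- The law of an entry: standard Gaussian, uniform on `{-1, 1}`, uniform on `{0, 1}`. -/
def law : Ensemble → Measure ℝ
  | .gaussian => gaussianReal 0 1
  | .rademacher => (2⁻¹ : ℝ≥0∞) • Measure.dirac (-1) + (2⁻¹ : ℝ≥0∞) • Measure.dirac 1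
  | .bernoulli => (2⁻¹ : ℝ≥0∞) • Measure.dirac 0 + (2⁻¹ : ℝ≥0∞) • Measure.dirac 1

/-- The law of the random `n × n` matrix: the entries are independent with law `law D`. -/
def matrixLaw (D : Ensemble) (n : ℕ) : Measure (Fin n → Fin n → ℝ) :=
  Measure.pi fun _ : Fin n => Measure.pi fun _ : Fin n => law D

open Pool.Agent.V5helper29.RLS in
theorem good_prob (D : Ensemble) : Tendsto (fun n : ℕ => matrixLaw D n {A | Good n A}) atTop (𝓝 1) := by
  have h2 : S_TWO := two_good (tc ort lo sp) (asy cb) tr clo
  cases D with
  | gaussian => exact gau Pool.Agent.V5helper72.RLS.t_FUB ort gcl Pool.Agent.V5helper72.RLS.t_GSL clo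
  | rademacher =>
    have h := h2 (-1) 2 (by norm_num) (by norm_num) (by norm_num)
    have e : two (-1) 2 = law .rademacher := by
      unfold two law
      norm_num
    rw [e] at h
    exact h
  | bernoulli =>
    have h := h2 0 1 (by norm_num) (by norm_num) (by norm_num)
    have e : two 0 1 = law .bernoulli := by
      unfold two law
      norm_num
    rw [e] at h
    exact h

/-- **Theorem.** There is a program (`solve`, `cost` is the number of its operations) such that for each of the three
ensembles and every real number `ω > 2` there are `δ > 0` (in fact `δ = ω - 2`), `C`, `k` and events `E n` with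
probability tending to `1` such that for all `n`, all `A ∈ E n`, all `b ∈ ℝ ^ n` and all `ε ∈ (0, 1)` it solves
`A x = b` to accuracy `ε` with at most `C n ^ (ω - δ) log ^ k (n / ε)` operations. -/
theorem result : ∃ (solve : ℕ × (List (List ℝ) × List ℝ × ℝ) → List ℝ)
    (cost : ℕ × (List (List ℝ) × List ℝ × ℝ) → ℕ), Computes solve cost ∧
    ∀ (D : Ensemble) (ω : ℝ), 2 < ω → ∃ (δ C : ℝ) (k : ℕ) (E : ∀ n : ℕ, Set (Fin n → Fin n → ℝ)),
      0 < δ ∧ ω - δ = 2 ∧ (∀ n, MeasurableSet (E n)) ∧
      Tendsto (fun n : ℕ => matrixLaw D n (E n)) atTop (𝓝 1) ∧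
      ∀ (n : ℕ) (A : Fin n → Fin n → ℝ), A ∈ E n → ∀ (b : Fin n → ℝ) (ε : ℝ), 0 < ε → ε < 1 →
        ∃ x : Fin n → ℝ, solve (n, encode A, List.ofFn b, ε) = List.ofFn x ∧
          ‖WithLp.toLp 2 (Matrix.of A *ᵥ x - b)‖ ≤ ε * ‖WithLp.toLp 2 b‖ ∧
          (cost (n, encode A, List.ofFn b, ε) : ℝ) ≤ C * (n : ℝ) ^ (ω - δ) * Real.log (n / ε) ^ k := by
  obtain ⟨K, hK⟩ := Pool.Agent.V5helper29.RLS.cost_solve
  refine ⟨_, _, hK, fun D ω hω => ⟨ω - 2, 20000 * K, 2,
    fun n => {A | 2 ≤ n ∧ Pool.Agent.V5helper29.RLS.Good n A}, by linarith, by ring, fun n => ?_, ?_, ?_⟩⟩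
  · by_cases h : 2 ≤ n
    · simpa only [h, true_and] using (Pool.Agent.V5helper29.RLS.clo n).measurableSet
    · simp only [h, false_and, Set.setOf_false, MeasurableSet.empty]
  · refine (good_prob D).congr' ?_
    filter_upwards [eventually_ge_atTop 2] with n hn
    simp only [hn, true_and]
  · rintro n A ⟨hn, hA⟩ b ε h0 h1
    obtain ⟨x, hx1, hx2⟩ := Pool.Agent.V5helper29.RLS.solve_good
      (Pool.Agent.V5helper29.RLS.num Pool.Agent.V5helper29.RLS.bd
        (Pool.Agent.V5helper29.RLS.rec Pool.Agent.V5helper29.RLS.bd)) hn A hA b h0 h1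
    refine ⟨x, hx1, hx2, ?_⟩
    have e : (n : ℝ) ^ (ω - (ω - 2)) = (n : ℝ) ^ 2 := by
      rw [sub_sub_cancel]
      norm_num
    rw [e]
    exact Pool.Agent.V5helper29.RLS.cost_bound hn h0 h1 K

end Pool.Agent.Results.MP_9b7f10_lc.NearQuadraticTime
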